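import Mathlib

open Filter Topology Polynomial

namespace Pool.Agent.Results.MP_df87fb_al.LogNormalForm

section Defs

variable {G : Type} [Group G] {m : ℕ}

/-- Evaluation `π` of a word in the letters `X i` (`(i, true)`) and their formal inverses
(`(i, false)`). -/
def ev (X : Fin m → G) (w : List (Fin m × Bool)) : G :=
  (w.map fun p => if p.2 then X p.1 else (X p.1)⁻¹).prod

/-- Word length of a group element. -/
noncomputable def nrm (X : Fin m → G) (g : G) : ℕ := sInf {n | ∃ w, w.length = n ∧ ev X w = g}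

/-- The word metric `d_X`. -/
noncomputable def dX (X : Fin m → G) (g h : G) : ℕ := nrm X (g⁻¹ * h)

/-- `L` is a normal form: `π` restricted to `L` is a bijection onto `G`. -/
def IsNormalForm (X : Fin m → G) (L : Set (List (Fin m × Bool))) : Prop :=
  Set.BijOn (ev X) L Set.univ

/-- The function `s_L`; here `w.take t` is the prefix `w(t)`. -/
noncomputable def sL (X : Fin m → G) (L : Set (List (Fin m × Bool))) (n : ℕ) : ℕ :=
  sSup {d | ∃ t ≤ n, ∃ w₁ ∈ L, ∃ w₂ ∈ L, ∃ i, ev X w₁ * X i = ev X w₂ ∧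
    d = dX X (ev X (w₁.take t)) (ev X (w₂.take t))}

/-- `h ≼ f`. -/
def Preceq (h f : ℕ → ℝ) : Prop :=
  ∃ K M : ℕ, 0 < K ∧ 0 < M ∧ ∀ᶠ n in atTop, h n ≤ K * f (M * n)

/-- `h ≪ f`. -/
def Ll (h f : ℕ → ℝ) : Prop :=
  ∃ t : ℕ → ℝ, Monotone t ∧ Tendsto t atTop atTop ∧ Preceq (fun n => h n * t n) f

/-- `L` is quasiregular. -/
def Quasiregular (L : Set (List (Fin m × Bool))) : Prop :=
  ∃ c : ℕ, ∀ w ∈ L, ∀ u, u <+: w → ∃ v : List (Fin m × Bool), v.length ≤ c ∧ u ++ v ∈ L

end Defs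

/-- The torus bundle group `ℤ² ⋊_M ℤ`. -/
@[ext] structure GM (M : GL (Fin 2) ℤ) where
  /-- the `ℤ²` coordinate -/
  v : Fin 2 → ℤ
  /-- the `ℤ` coordinate -/
  z : ℤ

namespace GM

variable {M : GL (Fin 2) ℤ}

instance : Mul (GM M) := ⟨fun a b => ⟨a.v + ((M ^ a.z : GL (Fin 2) ℤ) : Matrix _ _ ℤ).mulVec b.v,
  a.z + b.z⟩⟩
instance : One (GM M) := ⟨⟨0, 0⟩⟩
instance : Inv (GM M) := ⟨fun a => ⟨-((M ^ (-a.z) : GL (Fin 2) ℤ) : Matrix _ _ ℤ).mulVec a.v, -a.z⟩⟩

@[simp] theorem mul_v (a b : GM M) :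
    (a * b).v = a.v + ((M ^ a.z : GL (Fin 2) ℤ) : Matrix _ _ ℤ).mulVec b.v := rfl
@[simp] theorem mul_z (a b : GM M) : (a * b).z = a.z + b.z := rfl
@[simp] theorem one_v : (1 : GM M).v = 0 := rfl
@[simp] theorem one_z : (1 : GM M).z = 0 := rfl
@[simp] theorem inv_v (a : GM M) :
    (a⁻¹).v = -((M ^ (-a.z) : GL (Fin 2) ℤ) : Matrix _ _ ℤ).mulVec a.v := rfl
@[simp] theorem inv_z (a : GM M) : (a⁻¹).z = -a.z := rfl

instance : Group (GM M) where
  mul_assoc a b c := by
    ext1
    · simp only [mul_v, mul_z, Matrix.mulVec_add, zpow_add, Units.val_mul,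
        Matrix.mulVec_mulVec, add_assoc]
    · simp [add_assoc]
  one_mul a := by
    ext1
    · simp
    · simp
  mul_one a := by
    ext1
    · simp
    · simp
  inv_mul_cancel a := by
    ext1
    · simp
    · simp

end GM

open GM

/-! ### Norms -/

section Norm

variable {G : Type} [Group G] {m : ℕ} (X : Fin m → G)

theorem ev_append (u w : List (Fin m × Bool)) : ev X (u ++ w) = ev X u * ev X w := by
  simp [ev]

theorem ev_nil : ev X [] = 1 := rfl

theorem nrm_ev_le (w : List (Fin m × Bool)) : nrm X (ev X w) ≤ w.length :=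
  Nat.sInf_le ⟨w, rfl, rfl⟩

/-- Formal inverse of a word. -/
def finv (w : List (Fin m × Bool)) : List (Fin m × Bool) :=
  (w.map fun p => (p.1, !p.2)).reverse

theorem ev_finv (w : List (Fin m × Bool)) : ev X (finv w) = (ev X w)⁻¹ := by
  induction w with
  | nil => simp [finv, ev]
  | cons p w ih =>
    have : finv (p :: w) = finv w ++ [(p.1, !p.2)] := by simp [finv]
    rw [this, ev_append, ih]
    have h2 : ev X (p :: w) = ev X [p] * ev X w := by
      rw [← ev_append]; rfl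
    rw [h2, mul_inv_rev]
    congr 1
    rcases p with ⟨i, b⟩
    cases b <;> simp [ev]

theorem ev_surj (hX : Subgroup.closure (Set.range X) = ⊤) (g : G) : ∃ w, ev X w = g := by
  have hg : g ∈ Subgroup.closure (Set.range X) := by rw [hX]; trivial
  induction hg using Subgroup.closure_induction with
  | mem x hx =>
    obtain ⟨i, rfl⟩ := hx
    exact ⟨[(i, true)], by simp [ev]⟩
  | one => exact ⟨[], rfl⟩
  | mul x y _ _ hx hy =>
    obtain ⟨u, rfl⟩ := hx
    obtain ⟨w, rfl⟩ := hy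
    exact ⟨u ++ w, ev_append X u w⟩
  | inv x _ hx =>
    obtain ⟨u, rfl⟩ := hx
    exact ⟨finv u, ev_finv X u⟩

variable (hX : Subgroup.closure (Set.range X) = ⊤)
include hX

theorem exists_geo (g : G) : ∃ w, w.length = nrm X g ∧ ev X w = g := by
  have h : {n | ∃ w, w.length = n ∧ ev X w = g}.Nonempty := by
    obtain ⟨w, hw⟩ := ev_surj X hX g
    exact ⟨w.length, w, rfl, hw⟩
  exact Nat.sInf_mem h

theorem nrm_mul (g h : G) : nrm X (g * h) ≤ nrm X g + nrm X h := by
  obtain ⟨u, hu, rfl⟩ := exists_geo X hX g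
  obtain ⟨w, hw, rfl⟩ := exists_geo X hX h
  rw [← hu, ← hw, ← ev_append, ← List.length_append]
  exact nrm_ev_le X _

theorem nrm_inv (g : G) : nrm X g⁻¹ ≤ nrm X g := by
  obtain ⟨u, hu, rfl⟩ := exists_geo X hX g
  rw [← ev_finv, ← hu]
  have : u.length = (finv u).length := by simp [finv]
  rw [this]
  exact nrm_ev_le X _

theorem nrm_pow (g : G) (k : ℕ) : nrm X (g ^ k) ≤ k * nrm X g := by
  induction k with
  | zero =>
    rw [pow_zero, zero_mul]
    have := nrm_ev_le X []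
    rwa [ev_nil, List.length_nil] at this
  | succ k ih =>
    rw [pow_succ]
    have := nrm_mul X hX (g ^ k) g
    nlinarith

end Norm

/-! ### Trace sequences -/

/-- The traces of the powers of a determinant one matrix with trace `τ`. -/
def Lu (τ : ℤ) : ℕ → ℤ
  | 0 => 2
  | 1 => τ
  | k + 2 => τ * Lu τ (k + 1) - Lu τ k

theorem Lu_inv (τ : ℤ) (hτ : 3 ≤ τ) (k : ℕ) :
    Lu τ k ≤ Lu τ (k + 1) ∧ 2 ^ k ≤ Lu τ k ∧ 2 ^ (k + 1) ≤ Lu τ (k + 1) := by
  induction k with
  | zero => simp [Lu]; omega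
  | succ k ih =>
    obtain ⟨h1, h2, h3⟩ := ih
    have h4 : (0 : ℤ) < 2 ^ k := by positivity
    have h5 : Lu τ (k + 1 + 1) = τ * Lu τ (k + 1) - Lu τ k := rfl
    have h6 : 2 * Lu τ (k + 1) ≤ Lu τ (k + 1 + 1) := by rw [h5]; nlinarith
    refine ⟨by nlinarith, h3, ?_⟩
    rw [pow_succ]
    linarith

theorem Lu_pos (τ : ℤ) (hτ : 3 ≤ τ) (k : ℕ) : 0 < Lu τ k :=
  lt_of_lt_of_le (by positivity) (Lu_inv τ hτ k).2.1

theorem Lu_le (τ : ℤ) (hτ : 3 ≤ τ) (k : ℕ) : Lu τ (k + 1) ≤ τ * Lu τ k := by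
  cases k with
  | zero => simp [Lu]; linarith
  | succ k =>
    have h5 : Lu τ (k + 1 + 1) = τ * Lu τ (k + 1) - Lu τ k := rfl
    have := Lu_pos τ hτ k
    rw [h5]
    linarith

theorem digits (τ : ℤ) (hτ : 3 ≤ τ) (m : ℕ) (N : ℤ) (h0 : 0 ≤ N) (hN : N < Lu τ m) :
    ∃ (c : ℕ → ℕ) (r : ℕ), (∀ k, c k ≤ τ.toNat) ∧ r ≤ 1 ∧
      N = ∑ k ∈ Finset.range m, (c k : ℤ) * Lu τ k + r := by
  induction m generalizing N with
  | zero =>
    refine ⟨fun _ => 0, N.toNat, fun _ => Nat.zero_le _, ?_, ?_⟩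
    · have : N < 2 := hN
      omega
    · simp; omega
  | succ m ih =>
    have hL := Lu_pos τ hτ m
    have h1 : 0 ≤ N % Lu τ m := Int.emod_nonneg _ hL.ne'
    have h2 : N % Lu τ m < Lu τ m := Int.emod_lt_of_pos _ hL
    obtain ⟨c, r, hc, hr, hNc⟩ := ih _ h1 h2
    have hq0 : 0 ≤ N / Lu τ m := Int.ediv_nonneg h0 hL.le
    have hq : N / Lu τ m ≤ τ := by
      have h3 : N < τ * Lu τ m := lt_of_lt_of_le hN (Lu_le τ hτ m)
      exact (Int.ediv_lt_of_lt_mul hL h3).le
    refine ⟨Function.update c m (N / Lu τ m).toNat, r, ?_, hr, ?_⟩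
    · intro k
      by_cases hk : k = m
      · subst hk
        rw [Function.update_self]
        omega
      · rw [Function.update_of_ne hk]
        exact hc k
    · rw [Finset.sum_range_succ, Function.update_self]
      have h4 : ∑ k ∈ Finset.range m,
          ((Function.update c m (N / Lu τ m).toNat k : ℕ) : ℤ) * Lu τ k =
          ∑ k ∈ Finset.range m, (c k : ℤ) * Lu τ k := by
        apply Finset.sum_congr rfl
        intro k hk
        rw [Function.update_of_ne (Finset.mem_range.1 hk).ne]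
      rw [h4]
      have h5 : (((N / Lu τ m).toNat : ℕ) : ℤ) = N / Lu τ m := Int.toNat_of_nonneg hq0
      rw [h5]
      have h6 := Int.emod_add_mul_ediv N (Lu τ m)
      rw [hNc] at h6
      linarith

theorem Lu_matrix (A B : Matrix (Fin 2) (Fin 2) ℤ) (τ : ℤ) (hAB : A * B = 1) (hBA : B * A = 1)
    (hτ : A + B = τ • (1 : Matrix (Fin 2) (Fin 2) ℤ)) (k : ℕ) :
    A ^ k + B ^ k = Lu τ k • (1 : Matrix (Fin 2) (Fin 2) ℤ) ∧
      A ^ (k + 1) + B ^ (k + 1) = Lu τ (k + 1) • (1 : Matrix (Fin 2) (Fin 2) ℤ) := by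
  induction k with
  | zero =>
    constructor
    · simp only [pow_zero, Lu]
      rw [two_smul]
    · simpa [Lu] using hτ
  | succ k ih =>
    refine ⟨ih.2, ?_⟩
    have h1 : A ^ (k + 1 + 1) + B ^ (k + 1 + 1) =
        (A ^ (k + 1) + B ^ (k + 1)) * (A + B) - (A ^ k + B ^ k) := by
      have e1 : A ^ (k + 1) * B = A ^ k := by rw [pow_succ, mul_assoc, hAB, mul_one]
      have e2 : B ^ (k + 1) * A = B ^ k := by rw [pow_succ, mul_assoc, hBA, mul_one]
      rw [add_mul, mul_add, mul_add, e1, e2, ← pow_succ, ← pow_succ]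
      abel
    rw [h1, ih.1, ih.2, hτ]
    have h5 : Lu τ (k + 1 + 1) = τ * Lu τ (k + 1) - Lu τ k := rfl
    rw [h5, sub_smul, smul_mul_smul_comm, mul_one, mul_comm]

/-! ### Logarithmic distortion -/

section Distortion

variable {M : GL (Fin 2) ℤ}

/-- The element `(v, 0)`. -/
def gg (v : Fin 2 → ℤ) : GM M := ⟨v, 0⟩

theorem gg_add (v w : Fin 2 → ℤ) : (gg (v + w) : GM M) = gg v * gg w := by
  ext1
  · simp [gg]
  · simp [gg]

theorem gg_nsmul (k : ℕ) (v : Fin 2 → ℤ) : (gg ((k : ℤ) • v) : GM M) = gg v ^ k := by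
  induction k with
  | zero => simp; rfl
  | succ k ih =>
    rw [pow_succ, ← ih, ← gg_add]
    congr 1
    push_cast
    rw [add_smul, one_smul]

theorem gg_neg (v : Fin 2 → ℤ) : (gg (-v) : GM M) = (gg v)⁻¹ := by
  ext1
  · simp [gg]
  · simp [gg]

/-- The element `t^k`. -/
def tz (k : ℤ) : GM M := ⟨0, k⟩

theorem tz_conj (k : ℤ) (v : Fin 2 → ℤ) :
    (tz k : GM M) * gg v * (tz k)⁻¹ =
      gg (((M ^ k : GL (Fin 2) ℤ) : Matrix (Fin 2) (Fin 2) ℤ).mulVec v) := by
  ext1
  · simp [gg, tz]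
  · simp [gg, tz]

variable {m : ℕ} (X : Fin m → GM M) (hX : Subgroup.closure (Set.range X) = ⊤)
include hX

theorem horner (T : GM M) (A : Matrix (Fin 2) (Fin 2) ℤ)
    (hT : ∀ w : Fin 2 → ℤ, T * gg w * T⁻¹ = gg (A.mulVec w)) (v : Fin 2 → ℤ) (t : ℕ) (n : ℕ)
    (c : ℕ → ℕ) (hc : ∀ k, c k ≤ t) :
    nrm X (gg (∑ k ∈ Finset.range n, (c k : ℤ) • (A ^ k).mulVec v)) ≤
      n * (t * nrm X (gg v) + 2 * nrm X T) := by
  induction n generalizing c with
  | zero =>
    simp only [Finset.range_zero, Finset.sum_empty, zero_mul]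
    have := nrm_ev_le X []
    rw [ev_nil, List.length_nil] at this
    exact this
  | succ n ih =>
    have h1 : ∑ k ∈ Finset.range (n + 1), (c k : ℤ) • (A ^ k).mulVec v =
        (c 0 : ℤ) • v + A.mulVec (∑ k ∈ Finset.range n, (c (k + 1) : ℤ) • (A ^ k).mulVec v) := by
      rw [Finset.sum_range_succ', add_comm]
      congr 1
      · simp
      · rw [Matrix.mulVec_sum]
        apply Finset.sum_congr rfl
        intro k _
        rw [Matrix.mulVec_smul, Matrix.mulVec_mulVec, ← pow_succ']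
    rw [h1, gg_add, ← hT, gg_nsmul]
    have h2 := ih (fun k => c (k + 1)) (fun k => hc (k + 1))
    have h3 := nrm_pow X hX (gg v) (c 0)
    have h4 := nrm_inv X hX T
    set g := gg (∑ k ∈ Finset.range n, (c (k + 1) : ℤ) • (A ^ k).mulVec v)
    have h5 := nrm_mul X hX (gg v ^ c 0) (T * g * T⁻¹)
    have h6 := nrm_mul X hX (T * g) T⁻¹
    have h7 := nrm_mul X hX T g
    have h8 : c 0 * nrm X (gg v) ≤ t * nrm X (gg v) := Nat.mul_le_mul_right _ (hc 0)
    have h9 : (n + 1) * (t * nrm X (gg v) + 2 * nrm X T) =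
        n * (t * nrm X (gg v) + 2 * nrm X T) + (t * nrm X (gg v) + 2 * nrm X T) := by ring
    rw [h9]
    omega

omit hX in
theorem sq_trace (hM : ∃ l μ : ℝ, ((M : Matrix (Fin 2) (Fin 2) ℤ).charpoly.map
      (Int.castRingHom ℝ)) = (Polynomial.X - C l) * (Polynomial.X - C μ) ∧
      l ≠ 1 ∧ l ≠ -1 ∧ μ ≠ 1 ∧ μ ≠ -1) :
    3 ≤ (((M ^ (2 : ℤ) : GL (Fin 2) ℤ) : Matrix (Fin 2) (Fin 2) ℤ)).trace ∧
      (((M ^ (2 : ℤ) : GL (Fin 2) ℤ) : Matrix (Fin 2) (Fin 2) ℤ)).det = 1 := by
  obtain ⟨l, μ, hch, hl1, hl2, -, -⟩ := hM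
  set P : Matrix (Fin 2) (Fin 2) ℤ := (M : Matrix (Fin 2) (Fin 2) ℤ) with hP
  have hM2 : ((M ^ (2 : ℤ) : GL (Fin 2) ℤ) : Matrix (Fin 2) (Fin 2) ℤ) = P * P := by
    rw [zpow_ofNat, Units.val_pow_eq_pow_val, sq]
  have hdet : P.det = 1 ∨ P.det = -1 := by
    have : IsUnit P.det := (Matrix.isUnit_iff_isUnit_det P).1 M.isUnit
    exact Int.isUnit_iff.1 this
  have hdet2 : P.det * P.det = 1 := by
    rcases hdet with h | h <;> rw [h] <;> norm_num
  have htr : (P * P).trace = P.trace ^ 2 - 2 * P.det := by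
    rw [Matrix.trace_fin_two, Matrix.trace_fin_two, Matrix.det_fin_two]
    simp only [Matrix.mul_apply, Fin.sum_univ_two]
    ring
  rw [Matrix.charpoly_fin_two] at hch
  simp only [Polynomial.map_add, Polynomial.map_sub, Polynomial.map_mul, Polynomial.map_pow,
    Polynomial.map_X, Polynomial.map_C, Int.coe_castRingHom] at hch
  have h0 := congrArg (fun f : ℝ[X] => f.eval 0) hch
  have h1 := congrArg (fun f : ℝ[X] => f.eval 1) hch
  simp at h0 h1
  have hdR : (P.det : ℝ) = l * μ := by linarith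
  have htR : (P.trace : ℝ) = l + μ := by nlinarith
  have hd2R : (l * μ) * (l * μ) = 1 := by
    rw [← hdR]; exact_mod_cast hdet2
  have hlne : l ^ 2 - 1 ≠ 0 := by
    intro h
    have : (l - 1) * (l + 1) = 0 := by linarith
    rcases mul_eq_zero.1 this with h | h
    · exact hl1 (by linarith)
    · exact hl2 (by linarith)
  have hl0 : 0 < l ^ 2 := by
    rcases eq_or_ne l 0 with h | h
    · rw [h] at hd2R; norm_num at hd2R
    · positivity
  have hgt : (2 : ℝ) < ((P * P).trace : ℝ) := by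
    have e1 : ((P * P).trace : ℝ) = l ^ 2 + μ ^ 2 := by
      rw [htr, Int.cast_sub, Int.cast_mul, Int.cast_pow, hdR, htR]; push_cast; ring
    rw [e1]
    have e2 : l ^ 2 * μ ^ 2 = 1 := by linarith
    have e3 : 0 < (l ^ 2 - 1) ^ 2 := by positivity
    have e4 : l ^ 2 * (l ^ 2 + μ ^ 2 - 2) = (l ^ 2 - 1) ^ 2 := by nlinarith
    have e5 : 0 < l ^ 2 * (l ^ 2 + μ ^ 2 - 2) := by rw [e4]; exact e3
    have e6 := (mul_pos_iff_of_pos_left hl0).1 e5
    linarith
  rw [hM2]
  constructor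
  · have : (2 : ℤ) < (P * P).trace := by exact_mod_cast hgt
    linarith
  · rw [Matrix.det_mul]; exact hdet2

theorem log_bound (hM : ∃ l μ : ℝ, ((M : Matrix (Fin 2) (Fin 2) ℤ).charpoly.map
      (Int.castRingHom ℝ)) = (Polynomial.X - C l) * (Polynomial.X - C μ) ∧
      l ≠ 1 ∧ l ≠ -1 ∧ μ ≠ 1 ∧ μ ≠ -1) (v : Fin 2 → ℤ) :
    ∃ D : ℕ, ∀ N : ℤ, nrm X (gg (N • v)) ≤ D * (Nat.log 2 N.natAbs + 1) := by
  obtain ⟨hτ, hdet⟩ := sq_trace hM
  set A : Matrix (Fin 2) (Fin 2) ℤ := ((M ^ (2 : ℤ) : GL (Fin 2) ℤ) : Matrix (Fin 2) (Fin 2) ℤ)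
    with hA
  set B : Matrix (Fin 2) (Fin 2) ℤ := ((M ^ (-2 : ℤ) : GL (Fin 2) ℤ) : Matrix (Fin 2) (Fin 2) ℤ)
    with hB
  have hAB : A * B = 1 := by
    rw [hA, hB, ← Units.val_mul, ← zpow_add]; simp
  have hBA : B * A = 1 := by
    rw [hA, hB, ← Units.val_mul, ← zpow_add]; simp
  have hadj : B = A.adjugate := by
    have h1 : A * A.adjugate = 1 := by rw [Matrix.mul_adjugate, hdet, one_smul]
    calc B = B * (A * A.adjugate) := by rw [h1, mul_one]
      _ = A.adjugate := by rw [← mul_assoc, hBA, one_mul]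
  have hsum : A + B = A.trace • (1 : Matrix (Fin 2) (Fin 2) ℤ) := by
    rw [hadj, Matrix.adjugate_fin_two, Matrix.trace_fin_two]
    ext i j
    fin_cases i <;> fin_cases j <;> simp [add_comm]
  set τ := A.trace
  set T : GM M := tz 2
  have hT : ∀ w : Fin 2 → ℤ, T * gg w * T⁻¹ = gg (A.mulVec w) := fun w => tz_conj 2 w
  have hT' : ∀ w : Fin 2 → ℤ, T⁻¹ * gg w * (T⁻¹)⁻¹ = gg (B.mulVec w) := by
    intro w
    have : T⁻¹ = (tz (-2) : GM M) := by
      ext1
      · simp [T, tz]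
      · simp [T, tz]
    rw [this]
    exact tz_conj (-2) w
  set t := τ.toNat
  set a := nrm X (gg v : GM M) with ha
  set b := nrm X T with hb
  have hb' : nrm X T⁻¹ ≤ b := nrm_inv X hX T
  have key : ∀ N : ℕ, nrm X (gg ((N : ℤ) • v)) ≤
      (2 * (t * a + 2 * b) + a) * (Nat.log 2 N + 1) := by
    intro N
    have hN : (N : ℤ) < Lu τ (Nat.log 2 N + 1) := by
      have h1 : N < 2 ^ (Nat.log 2 N + 1) := Nat.lt_pow_succ_log_self (by norm_num) N
      have h2 := (Lu_inv τ hτ (Nat.log 2 N)).2.2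
      have h3 : (N : ℤ) < 2 ^ (Nat.log 2 N + 1) := by exact_mod_cast h1
      linarith
    obtain ⟨c, r, hc, hr, hNc⟩ := digits τ hτ _ (N : ℤ) (by positivity) hN
    set n := Nat.log 2 N + 1
    have h1 : (N : ℤ) • v = (∑ k ∈ Finset.range n, (c k : ℤ) • (A ^ k).mulVec v) +
        ((∑ k ∈ Finset.range n, (c k : ℤ) • (B ^ k).mulVec v) + (r : ℤ) • v) := by
      rw [← add_assoc, ← Finset.sum_add_distrib]
      have h2 : ∀ k, (c k : ℤ) • (A ^ k).mulVec v + (c k : ℤ) • (B ^ k).mulVec v =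
          ((c k : ℤ) * Lu τ k) • v := by
        intro k
        rw [← smul_add, ← Matrix.add_mulVec, (Lu_matrix A B τ hAB hBA hsum k).1,
          Matrix.smul_mulVec, Matrix.one_mulVec, smul_smul]
      rw [Finset.sum_congr rfl fun k _ => h2 k, ← Finset.sum_smul, ← add_smul, ← hNc]
    rw [h1, gg_add, gg_add, gg_nsmul r]
    have h3 := horner X hX T A hT v t n c hc
    have h4 := horner X hX T⁻¹ B hT' v t n c hc
    have h5 := nrm_pow X hX (gg v) r
    have h6 := nrm_mul X hX (gg (∑ k ∈ Finset.range n, (c k : ℤ) • (A ^ k).mulVec v))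
      (gg (∑ k ∈ Finset.range n, (c k : ℤ) • (B ^ k).mulVec v) * gg v ^ r)
    have h7 := nrm_mul X hX (gg (∑ k ∈ Finset.range n, (c k : ℤ) • (B ^ k).mulVec v))
      (gg v ^ r)
    rw [← ha, ← hb] at h3
    rw [← ha] at h4 h5
    have h8 : n * (t * a + 2 * nrm X T⁻¹) ≤ n * (t * a + 2 * b) := by
      apply Nat.mul_le_mul_left; omega
    have h9 : r * a ≤ 1 * a := Nat.mul_le_mul_right _ hr
    have h10 : 1 * a ≤ n * a := Nat.mul_le_mul_right _ (Nat.le_add_left _ _)
    have h11 : (2 * (t * a + 2 * b) + a) * n = n * (t * a + 2 * b) + n * (t * a + 2 * b) + n * a := by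
      ring
    rw [h11]
    omega
  refine ⟨2 * (t * a + 2 * b) + a, fun N => ?_⟩
  rcases Int.natAbs_eq N with h | h
  · have := key N.natAbs
    rwa [← h] at this
  · have h1 := key N.natAbs
    have h2 : N • v = -((N.natAbs : ℤ) • v) := by
      conv_lhs => rw [h]
      rw [neg_smul]
    rw [h2, gg_neg]
    exact (nrm_inv X hX _).trans h1

end Distortion

/-! ### The normal form -/

section Form

variable (M : GL (Fin 2) ℤ)

/-- The generators `x = ((1,0),0)`, `y = ((0,1),0)` and `t = (0,1)`. -/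
def XX : Fin 3 → GM M := ![gg ![1, 0], gg ![0, 1], tz 1]

theorem gg_zsmul (i : ℤ) (v : Fin 2 → ℤ) : (gg (i • v) : GM M) = gg v ^ i := by
  obtain ⟨n, rfl | rfl⟩ := i.eq_nat_or_neg
  · rw [gg_nsmul, zpow_natCast]
  · rw [neg_smul, gg_neg, gg_nsmul, zpow_neg, zpow_natCast]

theorem gg_coords (v : Fin 2 → ℤ) : (gg v : GM M) = gg ![1, 0] ^ v 0 * gg ![0, 1] ^ v 1 := by
  rw [← gg_zsmul, ← gg_zsmul, ← gg_add]
  congr 1
  funext i
  fin_cases i <;> simp

theorem tz_zpow (k : ℤ) : (tz k : GM M) = tz 1 ^ k := by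
  have h : ∀ n : ℕ, (tz (n : ℤ) : GM M) = tz 1 ^ n := by
    intro n
    induction n with
    | zero => simp [tz]; rfl
    | succ n ih =>
      rw [pow_succ, ← ih]
      ext1
      · simp [tz]
      · simp [tz]
  obtain ⟨n, rfl | rfl⟩ := k.eq_nat_or_neg
  · rw [h, zpow_natCast]
  · rw [zpow_neg, zpow_natCast, ← h]
    ext1
    · simp [tz]
    · simp [tz]

theorem split (g : GM M) : g = gg g.v * tz g.z := by
  ext1
  · simp [gg, tz]
  · simp [gg, tz]

theorem closure_XX : Subgroup.closure (Set.range (XX M)) = ⊤ := by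
  rw [eq_top_iff]
  rintro g -
  have m0 : gg ![1, 0] ∈ Subgroup.closure (Set.range (XX M)) :=
    Subgroup.subset_closure ⟨0, rfl⟩
  have m1 : gg ![0, 1] ∈ Subgroup.closure (Set.range (XX M)) :=
    Subgroup.subset_closure ⟨1, rfl⟩
  have m2 : tz 1 ∈ Subgroup.closure (Set.range (XX M)) :=
    Subgroup.subset_closure ⟨2, rfl⟩
  rw [split M g, gg_coords, tz_zpow]
  exact mul_mem (mul_mem (zpow_mem m0 _) (zpow_mem m1 _)) (zpow_mem m2 _)

/-- The word `(X a)^i`. -/
def px (i : ℤ) (a : Fin 3) : List (Fin 3 × Bool) := List.replicate i.natAbs (a, decide (0 ≤ i))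

theorem ev_replicate (X : Fin 3 → GM M) (n : ℕ) (p : Fin 3 × Bool) :
    ev X (List.replicate n p) = (if p.2 then X p.1 else (X p.1)⁻¹) ^ n := by
  simp [ev]

theorem ev_px (X : Fin 3 → GM M) (i : ℤ) (a : Fin 3) : ev X (px i a) = X a ^ i := by
  rw [px, ev_replicate]
  by_cases h : 0 ≤ i
  · simp only [h, decide_true, if_true]
    obtain ⟨n, rfl⟩ := Int.eq_ofNat_of_zero_le h
    simp
  · simp only [h, decide_false, Bool.false_eq_true, if_false]
    push Not at h
    obtain ⟨n, hn⟩ := Int.eq_ofNat_of_zero_le (neg_nonneg.2 h.le)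
    have : i = -(n : ℤ) := by linarith
    subst this
    simp

/-- The comb `x^{2^{2^0}} t^{±1} x^{2^{2^1}} t^{±1} ⋯`. -/
def PP (s : Bool) : ℕ → List (Fin 3 × Bool)
  | 0 => []
  | k + 1 => PP s k ++ List.replicate (2 ^ 2 ^ k) (0, true) ++ [(2, s)]

/-- The normal form language. -/
def LL : Set (List (Fin 3 × Bool)) := {w | ∃ s k i j, w = PP s k ++ px i 0 ++ px j 1}

theorem ev_PP_z (s : Bool) (k : ℕ) : (ev (XX M) (PP s k)).z = if s then (k : ℤ) else -k := by
  induction k with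
  | zero => simp [PP, ev]
  | succ k ih =>
    rw [PP, ev_append, ev_append, mul_z, mul_z, ih, ev_replicate]
    have h1 : ∀ n : ℕ, ((gg ![1, 0] : GM M) ^ n).z = 0 := by
      intro n
      rw [← gg_nsmul]
      rfl
    have h2 : ((if (0, true).2 = true then XX M (0, true).1 else (XX M (0, true).1)⁻¹) ^ 2 ^ 2 ^ k
        : GM M).z = 0 := by
      simpa [XX] using h1 (2 ^ 2 ^ k)
    rw [h2]
    cases s
    · simp [ev, XX, tz]; ring
    · simp [ev, XX, tz]

theorem ev_LL (s : Bool) (k : ℕ) (i j : ℤ) : ev (XX M) (PP s k ++ px i 0 ++ px j 1) =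
    ev (XX M) (PP s k) * gg ![i, j] := by
  rw [ev_append, ev_append, ev_px, ev_px, mul_assoc]
  congr 1
  have := gg_coords M ![i, j]
  rw [this]
  rfl

theorem ev_LL_z (s : Bool) (k : ℕ) (i j : ℤ) :
    (ev (XX M) (PP s k ++ px i 0 ++ px j 1)).z = if s then (k : ℤ) else -k := by
  rw [ev_LL, mul_z, ev_PP_z]
  simp [gg]

theorem PP_zero (s s' : Bool) : PP s 0 = PP s' 0 := rfl

theorem normalForm : IsNormalForm (XX M) LL := by
  refine ⟨fun _ _ => Set.mem_univ _, ?_, ?_⟩
  · rintro _ ⟨s, k, i, j, rfl⟩ _ ⟨s', k', i', j', rfl⟩ h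
    have hz := congrArg GM.z h
    rw [ev_LL_z, ev_LL_z] at hz
    have hP : PP s k = PP s' k' := by
      cases s <;> cases s' <;> simp at hz
      · rw [hz]
      · have h1 : k = 0 := by omega
        have h2 : k' = 0 := by omega
        rw [h1, h2, PP_zero]
      · have h1 : k = 0 := by omega
        have h2 : k' = 0 := by omega
        rw [h1, h2, PP_zero]
      · rw [hz]
    rw [ev_LL, ev_LL, hP] at h
    have h2 := mul_left_cancel h
    have h3 := congrArg GM.v h2
    have h4 : i = i' := congrFun h3 0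
    have h5 : j = j' := congrFun h3 1
    rw [hP, h4, h5]
  · rintro g -
    obtain ⟨s, k, hs⟩ : ∃ (s : Bool) (k : ℕ), g.z = if s then (k : ℤ) else -k := by
      obtain ⟨n, h | h⟩ := g.z.eq_nat_or_neg
      · exact ⟨true, n, by simpa using h⟩
      · exact ⟨false, n, by simpa using h⟩
    set r := (ev (XX M) (PP s k))⁻¹ * g with hr
    have hrz : r.z = 0 := by
      rw [hr, mul_z, inv_z, ev_PP_z, hs]
      ring
    have hr2 : r = gg ![r.v 0, r.v 1] := by
      ext1
      · funext a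
        fin_cases a <;> rfl
      · exact hrz
    refine ⟨PP s k ++ px (r.v 0) 0 ++ px (r.v 1) 1, ⟨s, k, _, _, rfl⟩, ?_⟩
    rw [ev_LL, ← hr2, hr, mul_inv_cancel_left]

theorem px_take (i : ℤ) (a : Fin 3) (n : ℕ) : ∃ i', (px i a).take n = px i' a := by
  rw [px, List.take_replicate]
  by_cases h : 0 ≤ i
  · refine ⟨(min n i.natAbs : ℕ), ?_⟩
    have h3 : (0 : ℤ) ≤ ((min n i.natAbs : ℕ) : ℤ) := Int.natCast_nonneg _
    rw [px]
    simp only [h, h3, Int.natAbs_natCast]
  · by_cases hn : n = 0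
    · exact ⟨0, by simp [hn, px]⟩
    · refine ⟨-(min n i.natAbs : ℕ), ?_⟩
      have h1 : min n i.natAbs ≠ 0 := by omega
      have h2 : ¬ (0 : ℤ) ≤ -((min n i.natAbs : ℕ) : ℤ) := by omega
      rw [px]
      simp only [h, h2, Int.natAbs_neg, Int.natAbs_natCast]

theorem px_zero (a : Fin 3) : px 0 a = [] := rfl

theorem px_nat (n : ℕ) (a : Fin 3) : px (n : ℤ) a = List.replicate n (a, true) := by
  simp [px]

theorem PP_take (s : Bool) (k n : ℕ) : (PP s k).take n ∈ LL := by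
  induction k with
  | zero => exact ⟨s, 0, 0, 0, by simp [PP, px_zero]⟩
  | succ k ih =>
    rw [PP]
    rw [List.take_append, List.take_append]
    rcases le_total n (PP s k).length with h | h
    · have h1 : n - (PP s k).length = 0 := Nat.sub_eq_zero_of_le h
      have h2 : n - (PP s k ++ List.replicate (2 ^ 2 ^ k) ((0 : Fin 3), true)).length = 0 := by
        rw [List.length_append]; omega
      rw [h1, h2]
      simpa using ih
    · rw [List.take_of_length_le h]
      rcases le_total n (PP s k ++ List.replicate (2 ^ 2 ^ k) ((0 : Fin 3), true)).length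
        with h2 | h2
      · have h3 : n - (PP s k ++ List.replicate (2 ^ 2 ^ k) ((0 : Fin 3), true)).length = 0 :=
          Nat.sub_eq_zero_of_le h2
        rw [h3, List.take_zero, List.append_nil, List.take_replicate]
        exact ⟨s, k, (min (n - (PP s k).length) (2 ^ 2 ^ k) : ℕ), 0, by
          rw [px_nat, px_zero, List.append_nil]⟩
      · rw [List.length_append, List.length_replicate] at h2
        have h3 : (List.replicate (2 ^ 2 ^ k) ((0 : Fin 3), true)).take (n - (PP s k).length) =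
            List.replicate (2 ^ 2 ^ k) (0, true) := by
          apply List.take_of_length_le
          rw [List.length_replicate]
          omega
        rw [h3]
        rcases Nat.eq_zero_or_pos
          (n - (PP s k ++ List.replicate (2 ^ 2 ^ k) ((0 : Fin 3), true)).length) with h4 | h4
        · rw [h4, List.take_zero, List.append_nil]
          exact ⟨s, k, (2 ^ 2 ^ k : ℕ), 0, by rw [px_nat, px_zero, List.append_nil]⟩
        · rw [List.take_of_length_le (l := [((2 : Fin 3), s)]) (by rw [List.length_singleton]; exact h4)]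
          exact ⟨s, k + 1, 0, 0, by simp [PP, px_zero]⟩

theorem LL_take (w : List (Fin 3 × Bool)) (hw : w ∈ LL) (n : ℕ) : w.take n ∈ LL := by
  obtain ⟨s, k, i, j, rfl⟩ := hw
  rw [List.take_append, List.take_append]
  rcases le_total n (PP s k).length with h | h
  · have h1 : n - (PP s k).length = 0 := Nat.sub_eq_zero_of_le h
    have h2 : n - (PP s k ++ px i 0).length = 0 := by
      rw [List.length_append]; omega
    rw [h1, h2]
    simpa using PP_take s k n
  · rw [List.take_of_length_le h]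
    obtain ⟨i', hi'⟩ := px_take i 0 (n - (PP s k).length)
    obtain ⟨j', hj'⟩ := px_take j 1 (n - (PP s k ++ px i 0).length)
    rw [hi', hj']
    exact ⟨s, k, i', j', rfl⟩

theorem prefixClosed (w : List (Fin 3 × Bool)) (hw : w ∈ LL) (u : List (Fin 3 × Bool))
    (hu : u <+: w) : u ∈ LL := by
  rw [List.prefix_iff_eq_take] at hu
  rw [hu]
  exact LL_take w hw _

theorem quasiregular : Quasiregular LL :=
  ⟨0, fun w hw u hu => ⟨[], by simp, by simpa using prefixClosed w hw u hu⟩⟩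

theorem length_PP (s : Bool) (k : ℕ) : 2 ^ k ≤ 2 * Nat.log 2 (PP s k).length + 1 := by
  cases k with
  | zero => simp
  | succ k =>
    have h1 : 2 ^ 2 ^ k ≤ (PP s (k + 1)).length := by
      rw [PP, List.length_append, List.length_append, List.length_replicate]
      omega
    have h2 : 2 ^ k ≤ Nat.log 2 (PP s (k + 1)).length := by
      have := Nat.log_mono_right (b := 2) h1
      rwa [Nat.log_pow (by norm_num)] at this
    rw [pow_succ]
    omega

theorem length_px (i : ℤ) (a : Fin 3) : (px i a).length = i.natAbs := by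
  simp [px]

variable {M} in
theorem norm_LL (hM : ∃ l μ : ℝ, ((M : Matrix (Fin 2) (Fin 2) ℤ).charpoly.map
      (Int.castRingHom ℝ)) = (Polynomial.X - C l) * (Polynomial.X - C μ) ∧
      l ≠ 1 ∧ l ≠ -1 ∧ μ ≠ 1 ∧ μ ≠ -1) :
    ∃ E : ℕ, ∀ w ∈ LL, nrm (XX M) (ev (XX M) w) ≤ E * (Nat.log 2 w.length + 1) := by
  have hX := closure_XX M
  obtain ⟨D, hD⟩ := log_bound (XX M) hX hM ![1, 0]
  obtain ⟨D', hD'⟩ := log_bound (XX M) hX hM ![0, 1]
  set b := nrm (XX M) (tz 1 : GM M) with hb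
  have hPP : ∀ s k, nrm (XX M) (ev (XX M) (PP s k)) ≤ (2 * D + b) * 2 ^ k := by
    intro s k
    induction k with
    | zero =>
      have h := nrm_ev_le (XX M) []
      rw [List.length_nil] at h
      exact h.trans (Nat.zero_le _)
    | succ k ih =>
      rw [PP, ev_append, ev_append]
      have h1 := nrm_mul (XX M) hX (ev (XX M) (PP s k) *
        ev (XX M) (List.replicate (2 ^ 2 ^ k) (0, true))) (ev (XX M) [(2, s)])
      have h2 := nrm_mul (XX M) hX (ev (XX M) (PP s k))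
        (ev (XX M) (List.replicate (2 ^ 2 ^ k) (0, true)))
      have h3 : nrm (XX M) (ev (XX M) (List.replicate (2 ^ 2 ^ k) (0, true))) ≤
          D * (2 ^ k + 1) := by
        rw [ev_replicate]
        have h4 := hD ((2 ^ 2 ^ k : ℕ) : ℤ)
        rw [gg_nsmul, Int.natAbs_natCast, Nat.log_pow (by norm_num)] at h4
        exact h4
      have h5 : nrm (XX M) (ev (XX M) [(2, s)]) ≤ b := by
        cases s
        · have : ev (XX M) [(2, false)] = (tz 1)⁻¹ := by simp [ev, XX]
          rw [this]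
          exact nrm_inv (XX M) hX _
        · have : ev (XX M) [(2, true)] = tz 1 := by simp [ev, XX]
          rw [this]
      have h6 : 1 ≤ 2 ^ k := Nat.one_le_two_pow
      rw [pow_succ]
      nlinarith
  refine ⟨2 * (2 * D + b) + D + D', ?_⟩
  rintro _ ⟨s, k, i, j, rfl⟩
  set w := PP s k ++ px i 0 ++ px j 1 with hw
  have hlen : w.length = (PP s k).length + i.natAbs + j.natAbs := by
    rw [hw, List.length_append, List.length_append, length_px, length_px]
  have l1 : Nat.log 2 (PP s k).length ≤ Nat.log 2 w.length := Nat.log_mono_right (by omega)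
  have l2 : Nat.log 2 i.natAbs ≤ Nat.log 2 w.length := Nat.log_mono_right (by omega)
  have l3 : Nat.log 2 j.natAbs ≤ Nat.log 2 w.length := Nat.log_mono_right (by omega)
  have h1 := hPP s k
  have h2 := length_PP s k
  have h3 : nrm (XX M) (ev (XX M) (px i 0)) ≤ D * (Nat.log 2 i.natAbs + 1) := by
    rw [ev_px]
    have := hD i
    rw [gg_zsmul] at this
    exact this
  have h4 : nrm (XX M) (ev (XX M) (px j 1)) ≤ D' * (Nat.log 2 j.natAbs + 1) := by
    rw [ev_px]
    have := hD' j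
    rw [gg_zsmul] at this
    exact this
  have h5 := nrm_mul (XX M) hX (ev (XX M) (PP s k) * ev (XX M) (px i 0)) (ev (XX M) (px j 1))
  have h6 := nrm_mul (XX M) hX (ev (XX M) (PP s k)) (ev (XX M) (px i 0))
  rw [← ev_append, ← ev_append] at h5
  rw [← ev_append] at h6
  set n := Nat.log 2 w.length
  have g1 : (2 * D + b) * 2 ^ k ≤ (2 * D + b) * (2 * n + 1) :=
    Nat.mul_le_mul_left _ (by omega)
  have g2 : D * (Nat.log 2 i.natAbs + 1) ≤ D * (n + 1) := Nat.mul_le_mul_left _ (by omega)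
  have g3 : D' * (Nat.log 2 j.natAbs + 1) ≤ D' * (n + 1) := Nat.mul_le_mul_left _ (by omega)
  nlinarith

end Form

/-! ### Real-variable estimates -/

theorem log_Ll : Ll (fun n => Real.log n) (fun n => (n : ℝ)) := by
  refine ⟨fun n => Real.sqrt n, ?_, ?_, ?_⟩
  · intro a b hab
    exact Real.sqrt_le_sqrt (by exact_mod_cast hab)
  · exact Real.tendsto_sqrt_atTop.comp tendsto_natCast_atTop_atTop
  · refine ⟨2, 1, by norm_num, by norm_num, ?_⟩
    filter_upwards [eventually_ge_atTop 1] with n hn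
    have hn' : (1 : ℝ) ≤ n := by exact_mod_cast hn
    have h0 : (0 : ℝ) ≤ n := by linarith
    have h1 : Real.log n = 2 * Real.log (Real.sqrt n) := by
      rw [Real.log_sqrt h0]; ring
    have h2 : Real.log (Real.sqrt n) ≤ Real.sqrt n := by
      have := Real.log_le_sub_one_of_pos (Real.sqrt_pos.2 (by linarith : (0 : ℝ) < n))
      linarith
    have h3 : Real.log (n : ℝ) * Real.sqrt n ≤ 2 * Real.sqrt n * Real.sqrt n := by
      apply mul_le_mul_of_nonneg_right _ (Real.sqrt_nonneg _)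
      rw [h1]; linarith
    have h4 : 2 * Real.sqrt n * Real.sqrt n = 2 * (n : ℝ) := by
      rw [mul_assoc, Real.mul_self_sqrt h0]
    push_cast
    linarith

theorem log_mono : Monotone fun n : ℕ => Real.log n := by
  intro a b hab
  rcases Nat.eq_zero_or_pos a with h | h
  · subst h
    simp only [Nat.cast_zero, Real.log_zero]
    exact Real.log_natCast_nonneg b
  · exact Real.log_le_log (by exact_mod_cast h) (by exact_mod_cast hab)

theorem result (M : GL (Fin 2) ℤ)
    (hM : ∃ l μ : ℝ, ((M : Matrix (Fin 2) (Fin 2) ℤ).charpoly.map (Int.castRingHom ℝ)) =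
      (Polynomial.X - C l) * (Polynomial.X - C μ) ∧ l ≠ 1 ∧ l ≠ -1 ∧ μ ≠ 1 ∧ μ ≠ -1) :
    ∃ X : Fin 3 → GM M, Subgroup.closure (Set.range X) = ⊤ ∧
      ∃ L : Set (List (Fin 3 × Bool)), IsNormalForm X L ∧
        (∀ w ∈ L, ∀ u, u <+: w → u ∈ L) ∧ Quasiregular L ∧
        (Monotone fun n : ℕ => Real.log n) ∧
        Ll (fun n => Real.log n) (fun n => (n : ℝ)) ∧
        Preceq (fun n => (sL X L n : ℝ)) (fun n => Real.log n) := by
  refine ⟨XX M, closure_XX M, LL, normalForm M, prefixClosed, quasiregular, log_mono, log_Ll, ?_⟩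
  obtain ⟨E, hE⟩ := norm_LL hM
  have hX := closure_XX M
  have hs : ∀ n, sL (XX M) LL n ≤ 2 * E * (Nat.log 2 n + 1) := by
    intro n
    apply csSup_le'
    rintro d ⟨t, ht, w₁, hw₁, w₂, hw₂, i, -, rfl⟩
    have key : ∀ w ∈ LL, nrm (XX M) (ev (XX M) (w.take t)) ≤ E * (Nat.log 2 n + 1) := by
      intro w hw
      have h1 := hE (w.take t) (LL_take w hw t)
      have h2 : (w.take t).length ≤ n := by
        rw [List.length_take]
        exact (min_le_left _ _).trans ht
      have h3 := Nat.log_mono_right (b := 2) h2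
      exact h1.trans (Nat.mul_le_mul_left _ (by omega))
    have h1 := key w₁ hw₁
    have h2 := key w₂ hw₂
    have h3 := nrm_mul (XX M) hX (ev (XX M) (w₁.take t))⁻¹ (ev (XX M) (w₂.take t))
    have h4 := nrm_inv (XX M) hX (ev (XX M) (w₁.take t))
    unfold dX
    nlinarith
  refine ⟨8 * E + 1, 1, by omega, by norm_num, ?_⟩
  filter_upwards [eventually_ge_atTop 2] with n hn
  have hn' : (2 : ℝ) ≤ n := by exact_mod_cast hn
  have hl2 : (1 / 2 : ℝ) < Real.log 2 := by have := Real.log_two_gt_d9; linarith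
  have h1 : (Nat.log 2 n : ℝ) * Real.log 2 ≤ Real.log n := by
    rw [← Real.log_pow]
    apply Real.log_le_log (by positivity)
    exact_mod_cast Nat.pow_log_le_self 2 (by omega)
  have h2 : Real.log 2 ≤ Real.log n := Real.log_le_log (by norm_num) hn'
  have h3 : ((Nat.log 2 n : ℝ) + 1) ≤ 4 * Real.log n := by
    have h0 : (0 : ℝ) ≤ Nat.log 2 n := by positivity
    nlinarith
  have h4 : (sL (XX M) LL n : ℝ) ≤ 2 * E * ((Nat.log 2 n : ℝ) + 1) := by exact_mod_cast hs n
  have hE0 : (0 : ℝ) ≤ E := by positivity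
  have hlog : 0 ≤ Real.log n := by linarith
  push_cast
  rw [one_mul]
  nlinarith

end Pool.Agent.Results.MP_df87fb_al.LogNormalForm
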